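import Pool.Agent.helper95.T5.SpecE

set_option autoImplicit false

namespace Pool.Agent.T5

open Finset NumberField Pool.Agent.helper3.FT Pool.Agent.helper47.RA

theorem BLE (hWEY : WEY_stmt) (hNEAR : NEAR_stmt) : BLE_stmt := by
  intro ε hε
  obtain ⟨C1, hC1, hW⟩ := hWEY
  obtain ⟨C2, hC2, hN⟩ := hNEAR (ε / 2) (by positivity)
  have hs1 : 1 ≤ √C1 := Real.one_le_sqrt.mpr hC1
  have h2e : 0 ≤ 2 / ε := by positivity
  refine ⟨√C1 * (1 + 2 / ε) * C2, ?_, ?_⟩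
  · have h1 : (1 : ℝ) ≤ 1 + 2 / ε := by linarith
    have h3 : 1 ≤ √C1 * (1 + 2 / ε) := by nlinarith
    nlinarith
  intro T N K M G P e' y H a W r s ρ m₀ g₀ r₁ r₂ hN1 hNT hK1 hKT hM1 hMT hG1 hGT hH1 hHT hP1
    he1 heT hy1 hyT haT hsq hS hWs hRes
  have hT1 : 1 ≤ T := le_trans hN1 hNT
  have hT1r : (1 : ℝ) ≤ T := by exact_mod_cast hT1
  have hT0r : (0 : ℝ) < T := by linarith
  have hM1r : (1 : ℝ) ≤ M := by exact_mod_cast hM1
  have hG1r : (1 : ℝ) ≤ G := by exact_mod_cast hG1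
  have hMTr : (M : ℝ) ≤ T := by exact_mod_cast hMT
  have hGTr : (G : ℝ) ≤ T := by exact_mod_cast hGT
  have hlM : Real.log M ≤ Real.log T := Real.log_le_log (by linarith) hMTr
  have hlG : Real.log G ≤ Real.log T := Real.log_le_log (by linarith) hGTr
  have hlM0 : 0 ≤ Real.log M := Real.log_nonneg hM1r
  have hlG0 : 0 ≤ Real.log G := Real.log_nonneg hG1r
  have hlT0 : 0 ≤ Real.log T := Real.log_nonneg hT1r
  -- the sum of the roots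
  have hsum := hN T N K M G H e' 1 1 y a W r s ρ hN1 hNT hK1 hKT hM1 hG1 hH1 hHT he1 le_rfl le_rfl
    (by simpa using heT) hy1 hyT haT hsq hS hWs hRes
  -- each exponential sum
  have hterm : ∀ p ∈ W, ∀ h ∈ Icc 1 H,
      ‖ESg (m₀ p) (g₀ p) M G P (r₁ p) (r₂ p) (h * (ρ p).1 / ((p.1 ^ 3 * p.2 * e' : ℕ) : ℝ))
        (h * (ρ p).2.1 / ((p.1 ^ 3 * p.2 * e' : ℕ) : ℝ))
        (h * (ρ p).2.2 / ((p.1 ^ 3 * p.2 * e' : ℕ) : ℝ)) 0 0‖ ≤
      √C1 * (1 + Real.log T) * √((M : ℝ) * G) * √(nearG M G e' ρ h p) := by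
    intro p _ h _
    have h1 := hW (m₀ p) (g₀ p) M G P (r₁ p) (r₂ p) (h * (ρ p).1 / ((p.1 ^ 3 * p.2 * e' : ℕ) : ℝ))
        (h * (ρ p).2.1 / ((p.1 ^ 3 * p.2 * e' : ℕ) : ℝ))
        (h * (ρ p).2.2 / ((p.1 ^ 3 * p.2 * e' : ℕ) : ℝ)) 0 0 hM1 hG1 hP1
    have hcast : ((p.1 ^ 3 * p.2 * e' : ℕ) : ℝ) = (p.1 : ℝ) ^ 3 * p.2 * e' := by push_cast; ring
    have hng : ((nearPts M G (h * (ρ p).1 / ((p.1 ^ 3 * p.2 * e' : ℕ) : ℝ))
        (h * (ρ p).2.1 / ((p.1 ^ 3 * p.2 * e' : ℕ) : ℝ))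
        (h * (ρ p).2.2 / ((p.1 ^ 3 * p.2 * e' : ℕ) : ℝ))).card : ℝ) = nearG M G e' ρ h p := by
      unfold nearG
      rw [hcast]
    rw [hng] at h1
    have hn0 : 0 ≤ nearG M G e' ρ h p := by unfold nearG; positivity
    refine le_of_sq_le_sq ?_ (by positivity)
    refine le_trans h1 ?_
    have e1 : (√C1 * (1 + Real.log T) * √((M : ℝ) * G) * √(nearG M G e' ρ h p)) ^ 2 =
        C1 * (1 + Real.log T) ^ 2 * (M * G) * nearG M G e' ρ h p := by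
      rw [mul_pow, mul_pow, mul_pow, Real.sq_sqrt (by linarith), Real.sq_sqrt (by positivity),
        Real.sq_sqrt hn0]
    rw [e1]
    have e2 : (1 + Real.log M) * (1 + Real.log G) ≤ (1 + Real.log T) ^ 2 := by
      rw [pow_two]
      exact mul_le_mul (by linarith) (by linarith) (by linarith) (by linarith)
    have e3 : 0 ≤ C1 * ((M : ℝ) * G) * nearG M G e' ρ h p := by positivity
    have e4 := mul_le_mul_of_nonneg_left e2 e3
    calc C1 * (1 + Real.log M) * (1 + Real.log G) * M * G * nearG M G e' ρ h p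
        = C1 * ((M : ℝ) * G) * nearG M G e' ρ h p * ((1 + Real.log M) * (1 + Real.log G)) := by ring
      _ ≤ C1 * ((M : ℝ) * G) * nearG M G e' ρ h p * (1 + Real.log T) ^ 2 := e4
      _ = C1 * (1 + Real.log T) ^ 2 * (M * G) * nearG M G e' ρ h p := by ring
  have hlog : 1 + Real.log T ≤ (1 + 2 / ε) * (T : ℝ) ^ (ε / 2) := by
    have h1 : 1 ≤ (T : ℝ) ^ (ε / 2) := Real.one_le_rpow hT1r (by positivity)
    have h2 : Real.log T ≤ (T : ℝ) ^ (ε / 2) / (ε / 2) :=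
      Real.log_le_rpow_div hT0r.le (by positivity)
    have h3 : (T : ℝ) ^ (ε / 2) / (ε / 2) = 2 / ε * (T : ℝ) ^ (ε / 2) := by
      field_simp
    rw [h3] at h2
    nlinarith
  have hnB0 : 0 ≤ √((M : ℝ) * G) := Real.sqrt_nonneg _
  have hS0 : 0 ≤ ∑ p ∈ W, ∑ h ∈ Icc 1 H, √(nearG M G e' ρ h p) :=
    Finset.sum_nonneg (fun p _ => Finset.sum_nonneg (fun h _ => Real.sqrt_nonneg _))
  have hTpos : 0 < (T : ℝ) ^ (ε / 2) := Real.rpow_pos_of_pos hT0r _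
  calc ∑ p ∈ W, ∑ h ∈ Icc 1 H, ‖ESg (m₀ p) (g₀ p) M G P (r₁ p) (r₂ p)
        (h * (ρ p).1 / ((p.1 ^ 3 * p.2 * e' : ℕ) : ℝ))
        (h * (ρ p).2.1 / ((p.1 ^ 3 * p.2 * e' : ℕ) : ℝ))
        (h * (ρ p).2.2 / ((p.1 ^ 3 * p.2 * e' : ℕ) : ℝ)) 0 0‖
      ≤ ∑ p ∈ W, ∑ h ∈ Icc 1 H,
        √C1 * (1 + Real.log T) * √((M : ℝ) * G) * √(nearG M G e' ρ h p) :=
        Finset.sum_le_sum (fun p hp => Finset.sum_le_sum (fun h hh => hterm p hp h hh))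
    _ = √C1 * (1 + Real.log T) * √((M : ℝ) * G) *
        ∑ p ∈ W, ∑ h ∈ Icc 1 H, √(nearG M G e' ρ h p) := by
        simp only [Finset.mul_sum]
    _ ≤ √C1 * ((1 + 2 / ε) * (T : ℝ) ^ (ε / 2)) * √((M : ℝ) * G) *
        (C2 * (T : ℝ) ^ (ε / 2) * nB N K H y 1 1 e' a) := by
        refine mul_le_mul ?_ hsum hS0 (by positivity)
        refine mul_le_mul_of_nonneg_right ?_ hnB0
        exact mul_le_mul_of_nonneg_left hlog (by positivity)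
    _ = √C1 * (1 + 2 / ε) * C2 * ((T : ℝ) ^ (ε / 2) * (T : ℝ) ^ (ε / 2)) * √((M : ℝ) * G) *
        nB N K H y 1 1 e' a := by ring
    _ = √C1 * (1 + 2 / ε) * C2 * (T : ℝ) ^ ε * √((M : ℝ) * G) * nB N K H y 1 1 e' a := by
        rw [← Real.rpow_add hT0r]
        norm_num

end Pool.Agent.T5
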